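import Mathlib
import Pool.Agent.Q30.PowEnd

/-!
A twisted conjugacy ratio in the free group of rank two which does not vanish.
-/

namespace Pool.Agent.Results.MP_dff590_al.PositiveRatio

open scoped commutatorElement

/-- The ball of radius `n` about the identity in the word metric of `X`. -/
def ball {G : Type} [Group G] (X : Set G) (n : ℕ) : Set G :=
  {g | ∃ l : List G, l.length ≤ n ∧ (∀ s ∈ l, s ∈ X ∨ s⁻¹ ∈ X) ∧ l.prod = g}

/-- The `φ`-conjugacy class of `y`: all `x = z y φ(z)⁻¹`. -/
def twClass {G : Type} [Group G] (φ : G →* G) (y : G) : Set G :=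
  {x | ∃ z : G, x = z * y * (φ z)⁻¹}

/-- The set of `φ`-conjugacy classes that have a representative in the ball of radius `n`. -/
def classes {G : Type} [Group G] (X : Set G) (φ : G →* G) (n : ℕ) : Set (Set G) :=
  {C | ∃ y ∈ ball X n, C = twClass φ y}

/-- The twisted conjugacy ratio. -/
noncomputable def tcr {G : Type} [Group G] (X : Set G) (φ : G →* G) : ℝ :=
  Filter.limsup (fun n : ℕ => ((classes X φ n).ncard : ℝ) / ((ball X n).ncard : ℝ))
    Filter.atTop

/-- The relators of the right-angled Artin group of a simple graph: the commutators of adjacent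
vertices. -/
def raagRels {V : Type} (Γ : SimpleGraph V) : Set (FreeGroup V) :=
  {r | ∃ v w : V, Γ.Adj v w ∧ r = ⁅FreeGroup.of v, FreeGroup.of w⁆}

/-- The right-angled Artin group of a simple graph. -/
abbrev RAAG {V : Type} (Γ : SimpleGraph V) : Type := PresentedGroup (raagRels Γ)

/-- Non-abelian right-angled Artin groups (of finite graphs). -/
def IsNonabelianRAAG (G : Type) [Group G] : Prop :=
  (∃ (V : Type) (_ : Finite V) (Γ : SimpleGraph V), Nonempty (G ≃* RAAG Γ)) ∧
    ∃ g h : G, g * h ≠ h * g

/-! ### Balls in the free group of rank two -/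

open FreeGroup (of mk)
open Q30.PowEnd

/-- The basis. -/
def basis : Set (FreeGroup (Fin 2)) := Set.range of

theorem norm_gen {s : FreeGroup (Fin 2)} (h : s ∈ basis ∨ s⁻¹ ∈ basis) :
    FreeGroup.norm s ≤ 1 := by
  rcases h with ⟨i, rfl⟩ | ⟨i, hi⟩
  · rw [FreeGroup.norm_of]
  · rw [← FreeGroup.norm_inv_eq, ← hi, FreeGroup.norm_of]

theorem mem_ball_iff {n : ℕ} {g : FreeGroup (Fin 2)} :
    g ∈ ball basis n ↔ FreeGroup.norm g ≤ n := by
  constructor
  · rintro ⟨l, hl, hs, rfl⟩
    refine le_trans ?_ hl
    clear hl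
    induction l with
    | nil => simp
    | cons s l ih =>
      rw [List.prod_cons, List.length_cons]
      have h1 := norm_gen (hs s List.mem_cons_self)
      have h2 := ih fun t ht => hs t (List.mem_cons_of_mem _ ht)
      have h3 := FreeGroup.norm_mul_le s l.prod
      omega
  · intro h
    refine ⟨g.toWord.map fun t => mk [t], by rwa [List.length_map], ?_, ?_⟩
    · intro s hs
      rw [List.mem_map] at hs
      obtain ⟨⟨c, e⟩, -, rfl⟩ := hs
      cases e
      · exact Or.inr ⟨c, rfl⟩
      · exact Or.inl ⟨c, rfl⟩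
    · have key : ∀ L : List (Fin 2 × Bool), (L.map fun t => mk [t]).prod = mk L := by
        intro L
        induction L with
        | nil => rfl
        | cons t L ih => rw [List.map_cons, List.prod_cons, ih, FreeGroup.mul_mk]; rfl
      rw [key, FreeGroup.mk_toWord]

theorem ball_finite (n : ℕ) : (ball basis n).Finite := by
  have h1 : (FreeGroup.toWord '' ball basis n).Finite := by
    refine (List.finite_length_le (Fin 2 × Bool) n).subset ?_
    rintro _ ⟨g, hg, rfl⟩
    exact mem_ball_iff.mp hg
  exact Set.Finite.of_finite_image h1 FreeGroup.toWord_injective.injOn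

theorem ball_pos (n : ℕ) : 0 < (ball basis n).ncard := by
  rw [Set.ncard_pos (ball_finite n)]
  exact ⟨1, mem_ball_iff.mpr (by simp)⟩

theorem ball_succ_le (n : ℕ) : (ball basis (n + 1)).ncard ≤ 5 * (ball basis n).ncard := by
  let T : Finset (FreeGroup (Fin 2)) := {1, of 0, (of 0)⁻¹, of 1, (of 1)⁻¹}
  have hT : T.card ≤ 5 := Finset.card_le_five
  have hsub : ball basis (n + 1) ⊆
      (fun p : FreeGroup (Fin 2) × FreeGroup (Fin 2) => p.2 * p.1) '' ((T : Set _) ×ˢ ball basis n) := by
    intro g hg
    rw [mem_ball_iff] at hg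
    rcases List.eq_nil_or_concat g.toWord with h | ⟨L, s, h⟩
    · refine ⟨(1, g), ⟨?_, ?_⟩, by simp⟩
      · simp [T]
      · rw [mem_ball_iff, FreeGroup.norm, h]
        simp
    · rw [List.concat_eq_append] at h
      refine ⟨(mk [s], mk L), ⟨?_, ?_⟩, ?_⟩
      · obtain ⟨c, e⟩ := s
        have h0 : ∀ c : Fin 2, (mk [(c, true)] : FreeGroup (Fin 2)) = of c := fun _ => rfl
        have h1 : ∀ c : Fin 2, (mk [(c, false)] : FreeGroup (Fin 2)) = (of c)⁻¹ := fun _ => rfl
        cases e
        · rw [h1]
          fin_cases c <;> simp [T]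
        · rw [h0]
          fin_cases c <;> simp [T]
      · rw [mem_ball_iff]
        refine FreeGroup.norm_mk_le.trans ?_
        rw [FreeGroup.norm, h, List.length_append] at hg
        simpa using hg
      · change mk L * mk [s] = g
        rw [FreeGroup.mul_mk, ← h, FreeGroup.mk_toWord]
  calc (ball basis (n + 1)).ncard ≤ _ :=
        Set.ncard_le_ncard hsub ((T.finite_toSet.prod (ball_finite n)).image _)
    _ ≤ ((T : Set (FreeGroup (Fin 2))) ×ˢ ball basis n).ncard :=
        Set.ncard_image_le (T.finite_toSet.prod (ball_finite n))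
    _ = T.card * (ball basis n).ncard := by rw [Set.ncard_prod, Set.ncard_coe_finset]
    _ ≤ 5 * (ball basis n).ncard := Nat.mul_le_mul_right _ hT

/-- A letter different from the last letter of `g`. -/
def other (g : FreeGroup (Fin 2)) : Fin 2 :=
  match g.toWord.getLast? with
  | none => 0
  | some s => if s.1 = 0 then 1 else 0

theorem other_ne (g : FreeGroup (Fin 2)) : ∀ r ∈ g.toWord.getLast?, r.1 ≠ other g := by
  intro r hr
  rw [Option.mem_def] at hr
  unfold other
  rw [hr]
  obtain ⟨c, e⟩ := r
  fin_cases c <;> simp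

theorem toWord_mul_other (g : FreeGroup (Fin 2)) :
    (g * of (other g)).toWord = g.toWord ++ [(other g, true)] := by
  have h1 : g * of (other g) = mk (g.toWord ++ [(other g, true)]) := by
    rw [← FreeGroup.mul_mk, FreeGroup.mk_toWord]
    rfl
  have h2 : FreeGroup.IsReduced (g.toWord ++ [(other g, true)]) := by
    have h3 : FreeGroup.IsReduced g.toWord := FreeGroup.isReduced_toWord
    unfold FreeGroup.IsReduced at h3 ⊢
    rw [List.isChain_append]
    refine ⟨h3, List.isChain_singleton _, ?_⟩
    intro x hx y hy hxy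
    rw [List.head?_cons, Option.mem_def, Option.some.injEq] at hy
    subst hy
    exact absurd hxy (other_ne g x hx)
  rw [h1, FreeGroup.toWord_mk, h2.reduce_eq]

theorem card_single (n : ℕ) :
    (ball basis n).ncard ≤ {y | y ∈ ball basis (n + 1) ∧ Single y}.ncard := by
  refine Set.ncard_le_ncard_of_injOn (fun g => g * of (other g)) ?_ ?_
    ((ball_finite (n + 1)).subset fun y hy => hy.1)
  · intro g hg
    rw [mem_ball_iff] at hg
    refine ⟨?_, g.toWord, (other g, true), toWord_mul_other g, other_ne g⟩
    rw [mem_ball_iff, FreeGroup.norm, toWord_mul_other, List.length_append]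
    exact Nat.succ_le_succ hg
  · intro g _ g' _ h
    have h1 := congrArg FreeGroup.toWord h
    simp only [toWord_mul_other] at h1
    exact FreeGroup.toWord_injective (List.append_inj' h1 rfl).1

theorem card_classes (n : ℕ) :
    (ball basis n).ncard ≤ (classes basis phi (n + 1)).ncard := by
  refine (card_single n).trans ?_
  refine Set.ncard_le_ncard_of_injOn (twClass phi) ?_ ?_ ?_
  · rintro y ⟨hy, -⟩
    exact ⟨y, hy, rfl⟩
  · rintro y ⟨-, hy⟩ y' ⟨-, hy'⟩ h
    have h1 : y' ∈ twClass phi y := by rw [h]; exact ⟨1, by simp⟩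
    have h2 : y ∈ twClass phi y' := by rw [← h]; exact ⟨1, by simp⟩
    obtain ⟨z, hz⟩ := h1
    obtain ⟨z', hz'⟩ := h2
    by_cases h3 : z = 1
    · rw [h3] at hz
      simpa using hz.symm
    · by_cases h4 : z' = 1
      · rw [h4] at hz'
        simpa using hz'
      · have h5 := unique_shortest hy h3
        have h6 := unique_shortest hy' h4
        rw [← hz] at h5
        rw [← hz'] at h6
        omega
  · have : classes basis phi (n + 1) = twClass phi '' ball basis (n + 1) := by
      ext C
      constructor
      · rintro ⟨y, hy, rfl⟩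
        exact ⟨y, hy, rfl⟩
      · rintro ⟨y, hy, rfl⟩
        exact ⟨y, hy, rfl⟩
    rw [this]
    exact (ball_finite (n + 1)).image _

theorem classes_le (n : ℕ) : (classes basis phi n).ncard ≤ (ball basis n).ncard := by
  have : classes basis phi n = twClass phi '' ball basis n := by
    ext C
    constructor
    · rintro ⟨y, hy, rfl⟩
      exact ⟨y, hy, rfl⟩
    · rintro ⟨y, hy, rfl⟩
      exact ⟨y, hy, rfl⟩
  rw [this]
  exact Set.ncard_image_le (ball_finite n)

theorem tcr_ge : 1 / 5 ≤ tcr basis phi := by
  unfold tcr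
  apply Filter.le_limsup_of_frequently_le
  · apply Filter.Eventually.frequently
    rw [Filter.eventually_atTop]
    refine ⟨1, fun m hm => ?_⟩
    obtain ⟨n, rfl⟩ := Nat.exists_eq_add_of_le' hm
    have h0 : (0 : ℝ) < (ball basis (n + 1)).ncard := by exact_mod_cast ball_pos (n + 1)
    rw [div_le_div_iff₀ (by norm_num) h0]
    have h1 : ((ball basis (n + 1)).ncard : ℝ) ≤ 5 * (ball basis n).ncard := by
      exact_mod_cast ball_succ_le n
    have h2 : ((ball basis n).ncard : ℝ) ≤ (classes basis phi (n + 1)).ncard := by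
      exact_mod_cast card_classes n
    linarith
  · refine ⟨1, ?_⟩
    rw [Filter.eventually_map]
    refine Filter.Eventually.of_forall fun n => ?_
    have h0 : (0 : ℝ) < (ball basis n).ncard := by exact_mod_cast ball_pos n
    change _ ≤ (1 : ℝ)
    rw [div_le_one h0]
    exact_mod_cast classes_le n

theorem free_isNonabelianRAAG : IsNonabelianRAAG (FreeGroup (Fin 2)) := by
  refine ⟨⟨Fin 2, inferInstance, ⊥, ?_⟩, of 0, of 1, ?_⟩
  · have h1 : raagRels (⊥ : SimpleGraph (Fin 2)) = ∅ := by
      rw [Set.eq_empty_iff_forall_notMem]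
      rintro r ⟨v, w, h, -⟩
      exact h
    have h2 : Subgroup.normalClosure (raagRels (⊥ : SimpleGraph (Fin 2))) = ⊥ := by
      rw [h1, Subgroup.normalClosure_empty]
    exact ⟨(QuotientGroup.quotientBot.symm.trans (QuotientGroup.quotientMulEquivOfEq h2.symm))⟩
  · intro h
    have h1 := congrArg FreeGroup.toWord h
    revert h1
    decide

/-- There are a non-abelian right-angled Artin group `G` (namely the free group of rank two), an
endomorphism `φ` of `G` and a finite generating set `X` of `G` such that the twisted conjugacy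
ratio of `φ` with respect to `X` is positive (indeed at least `1/5`). -/
theorem result : ∃ (G : Type) (_ : Group G) (X : Set G) (φ : G →* G),
    IsNonabelianRAAG G ∧ X.Finite ∧ Subgroup.closure X = ⊤ ∧ 1 / 5 ≤ tcr X φ :=
  ⟨FreeGroup (Fin 2), inferInstance, basis, phi, free_isNonabelianRAAG, Set.finite_range _,
    FreeGroup.closure_range_of _, tcr_ge⟩

end Pool.Agent.Results.MP_dff590_al.PositiveRatio
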